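import Mathlib
import Pool.Agent.Helper46.GKW.Final

/-!
# The Gauss-Kuzmin-Wirsing eigenvalues alternate in sign

`gkwOp f x = ∑_{m ≥ 1} (x + m)⁻² f(1 / (x + m))` is the Gauss-Kuzmin-Wirsing operator on the space
`V = {f | IsV f}` of functions continuous on the closed disc `|x - 1| ≤ 3/2` and analytic in its
interior (both are defined in `Pool/Agent/Helper46/GKW/Defs0.lean`; that the operator maps `V` to
itself is `gkwOp_mem` in `Defs.lean`, and a version of the theorem for the bundled linear map
`gkw : Module.End ℂ V` is `main_gkw` in `Transfer.lean`).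

The proof: in the coordinate `y = (x - 1/φ)/(x + φ)` the nonzero spectrum of the operator is that of
a self-adjoint trace class operator `A = ∑ (-1)ⁿ c_n ⊗ c_n*`; the shift `c_n ↦ c_{n+1}` has norm
less than one (`key_ineq`), so `A` solves a Stein equation `A + R A R* = c_0 ⊗ c_0*` with
`‖R‖ < 1`, and counting eigenvalues on both sides forces them to be simple, with distinct absolute
values and alternating signs (`abstract_main`).
-/

namespace Pool.Agent.Results.MP_6cdbdb_an.AlternatingSigns

open Pool.Agent.Helper46.GKW

/-- The nonzero eigenvalues of the Gauss-Kuzmin-Wirsing operator form a sequence of real numbers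
with strictly decreasing absolute values, tending to `0`; all of them are algebraically simple and
their signs alternate, starting with `+`. -/
theorem result :
    ∃ lam : ℕ → ℝ,
      -- the signs alternate
      (∀ n, 0 < (-1 : ℝ) ^ n * lam n) ∧
      -- the absolute values decrease strictly to zero
      StrictAnti (fun n => |lam n|) ∧
      Filter.Tendsto lam Filter.atTop (nhds 0) ∧
      -- the `lam n` are exactly the nonzero eigenvalues
      (∀ μ : ℂ, μ ≠ 0 →
        ((∃ f : ℂ → ℂ, IsV f ∧ f ≠ 0 ∧ ∀ x, gkwOp f x = μ * f x) ↔ ∃ n, μ = lam n)) ∧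
      -- each `lam n` is algebraically simple: the functions in `V` killed by a power of
      -- `gkwOp - lam n` are the multiples of one eigenfunction
      ∀ n, ∃ f : ℂ → ℂ, IsV f ∧ f ≠ 0 ∧ (∀ x, gkwOp f x = lam n * f x) ∧
        ∀ g : ℂ → ℂ, IsV g →
          ∀ k : ℕ, (fun (h : ℂ → ℂ) (x : ℂ) => gkwOp h x - lam n * h x)^[k] g = 0 →
            ∃ c : ℂ, ∀ x, g x = c * f x :=
  main_final

end Pool.Agent.Results.MP_6cdbdb_an.AlternatingSigns
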